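import Pool.Agent.H70.Mono.Defs2

/-!
# Project MONO, module B1: basic facts on truncated arcs
-/

set_option autoImplicit false

namespace Pool.Agent.H70.Mono

open MvPolynomial

section B

variable {k : Type} [Field k] [Algebra k ℂ] {σ : Type}

theorem B1_isCons_univ {ι : Type} : IsCons k (Set.univ : Set (ι → ℂ)) := by
  have h := IsCons.zero (k := k) (0 : MvPolynomial ι k)
  have e : {x : ι → ℂ | aeval x (0 : MvPolynomial ι k) = 0} = Set.univ := by
    ext x
    simp
  rwa [e] at h

theorem B1_isCons_forall {ι : Type} {J : Type} [Finite J] {A : J → Set (ι → ℂ)}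
    (hA : ∀ j, IsCons k (A j)) : IsCons k {x | ∀ j, x ∈ A j} := by
  classical
  have := Fintype.ofFinite J
  have h : ∀ s : Finset J, IsCons k {x : ι → ℂ | ∀ j ∈ s, x ∈ A j} := by
    intro s
    induction s using Finset.induction_on with
    | empty =>
      have e : {x : ι → ℂ | ∀ j ∈ (∅ : Finset J), x ∈ A j} = Set.univ := by
        ext x
        simp
      rw [e]
      exact B1_isCons_univ
    | insert a s ha ih =>
      have e : {x : ι → ℂ | ∀ j ∈ insert a s, x ∈ A j} =
          A a ∩ {x : ι → ℂ | ∀ j ∈ s, x ∈ A j} := by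
        ext x
        simp
      rw [e]
      exact (hA a).inter ih
  have e : {x : ι → ℂ | ∀ j, x ∈ A j} = {x : ι → ℂ | ∀ j ∈ (Finset.univ : Finset J), x ∈ A j} := by
    ext x
    simp
  rw [e]
  exact h _

theorem B1_isCons_eq {ι : Type} (p q : MvPolynomial ι k) :
    IsCons k {x : ι → ℂ | aeval x p = aeval x q} := by
  have h := IsCons.zero (k := k) (p - q)
  have e : {x : ι → ℂ | aeval x (p - q) = 0} = {x : ι → ℂ | aeval x p = aeval x q} := by
    ext x
    simp [sub_eq_zero]
  rwa [e] at h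

/-- B0a -/
theorem coeff_arc {N : ℕ} (φ : σ × Fin N → ℂ) (j : σ) (l : ℕ) :
    PowerSeries.coeff l (arc φ j) = if h : l < N then φ (j, ⟨l, h⟩) else 0 := by
  unfold arc
  rw [map_sum]
  simp only [PowerSeries.coeff_C_mul, PowerSeries.coeff_X_pow]
  by_cases h : l < N
  · rw [dif_pos h, Finset.sum_eq_single (⟨l, h⟩ : Fin N)]
    · simp
    · intro b _ hb
      rw [if_neg, mul_zero]
      intro hl
      exact hb (Fin.ext hl.symm)
    · intro hn
      exact absurd (Finset.mem_univ _) hn
  · rw [dif_neg h]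
    refine Finset.sum_eq_zero fun b _ => ?_
    rw [if_neg, mul_zero]
    intro hl
    exact h (hl ▸ b.2)

/-- B0b: congruence -/
theorem arcEval_congr (f : MvPolynomial σ k) (a b : σ → PowerSeries ℂ) (i : ℕ)
    (h : ∀ j, PowerSeries.X ^ i ∣ a j - b j) :
    PowerSeries.X ^ i ∣ aeval a f - aeval b f := by
  induction f using MvPolynomial.induction_on with
  | C c =>
    rw [MvPolynomial.aeval_C, MvPolynomial.aeval_C, sub_self]
    exact dvd_zero _
  | add p q hp hq =>
    rw [map_add, map_add]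
    have e : aeval a p + aeval a q - (aeval b p + aeval b q) =
        (aeval a p - aeval b p) + (aeval a q - aeval b q) := by ring
    rw [e]
    exact dvd_add hp hq
  | mul_X p j hp =>
    rw [map_mul, map_mul, aeval_X, aeval_X]
    have e : aeval a p * a j - aeval b p * b j =
        (aeval a p - aeval b p) * a j + aeval b p * (a j - b j) := by ring
    rw [e]
    exact dvd_add (Dvd.dvd.mul_right hp _) (Dvd.dvd.mul_left (h j) _)

/-- the universal arc computes `f(φ(t))` -/
theorem exists_series_poly (N : ℕ) (f : MvPolynomial σ k) :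
    ∃ P : PowerSeries (MvPolynomial (σ × Fin N) k), ∀ φ : σ × Fin N → ℂ,
      arcEval k φ f = PowerSeries.map (aeval φ : MvPolynomial (σ × Fin N) k →ₐ[k] ℂ).toRingHom P := by
  induction f using MvPolynomial.induction_on with
  | C c =>
    refine ⟨PowerSeries.C (C c), fun φ => ?_⟩
    unfold arcEval
    rw [MvPolynomial.aeval_C, PowerSeries.map_C]
    simp only [AlgHom.toRingHom_eq_coe, RingHom.coe_coe, MvPolynomial.aeval_C,
      PowerSeries.algebraMap_apply]
  | add p q hp hq =>
    obtain ⟨P, hP⟩ := hp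
    obtain ⟨Q, hQ⟩ := hq
    refine ⟨P + Q, fun φ => ?_⟩
    have e : arcEval k φ (p + q) = arcEval k φ p + arcEval k φ q := by
      unfold arcEval
      rw [map_add]
    rw [e, hP, hQ, map_add]
  | mul_X p j hp =>
    obtain ⟨P, hP⟩ := hp
    refine ⟨P * ∑ l : Fin N, PowerSeries.C (X (j, l)) * PowerSeries.X ^ (l : ℕ), fun φ => ?_⟩
    have e : arcEval k φ (p * X j) = arcEval k φ p * arc φ j := by
      unfold arcEval
      rw [map_mul, aeval_X]
    rw [e, hP, map_mul, map_sum]
    congr 1
    unfold arc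
    refine Finset.sum_congr rfl fun l _ => ?_
    rw [map_mul, PowerSeries.map_C, map_pow, PowerSeries.map_X]
    simp

/-- B0c: the coefficients of `f(φ(t))` are polynomials over `k` in the coefficients of `φ` -/
theorem exists_coeff_poly (N l : ℕ) (f : MvPolynomial σ k) :
    ∃ p : MvPolynomial (σ × Fin N) k, ∀ φ : σ × Fin N → ℂ,
      PowerSeries.coeff l (arcEval k φ f) = aeval φ p := by
  obtain ⟨P, hP⟩ := exists_series_poly N f
  refine ⟨PowerSeries.coeff l P, fun φ => ?_⟩
  rw [hP, PowerSeries.coeff_map]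
  rfl

/-- B0d -/
theorem isCons_Y (N : ℕ) (c : k) (f : MvPolynomial σ k) : IsCons k (Y k N c f) := by
  choose p hp using fun l : ℕ => exists_coeff_poly (k := k) N l f
  have h := B1_isCons_forall (k := k) (ι := σ × Fin N) (J := Fin N)
    (A := fun l => {φ : σ × Fin N → ℂ | aeval φ (p (l : ℕ)) =
      aeval φ (C (if (l : ℕ) + 1 = N then c else 0) : MvPolynomial (σ × Fin N) k)})
    (fun l => B1_isCons_eq _ _)
  have e : Y k N c f = {φ : σ × Fin N → ℂ | ∀ l : Fin N, φ ∈ {φ : σ × Fin N → ℂ |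
      aeval φ (p (l : ℕ)) =
      aeval φ (C (if (l : ℕ) + 1 = N then c else 0) : MvPolynomial (σ × Fin N) k)}} := by
    ext φ
    simp only [Y, Set.mem_ofPred_eq, MvPolynomial.aeval_C]
    constructor
    · intro H l
      rw [← hp, H l l.2]
      split_ifs <;> simp
    · intro H l hl
      rw [hp, H ⟨l, hl⟩]
      dsimp only
      split_ifs <;> simp
  rw [e]
  exact h

theorem isCons_Cy (N i : ℕ) (f : MvPolynomial σ k) : IsCons k (Cy k N i f) := by
  choose p hp using fun l : ℕ => exists_coeff_poly (k := k) N l f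
  have h := B1_isCons_forall (k := k) (ι := σ × Fin N) (J := Fin i)
    (A := fun l => {φ : σ × Fin N → ℂ | aeval φ (p (l : ℕ)) = 0})
    (fun l => IsCons.zero _)
  have e : Cy k N i f = {φ : σ × Fin N → ℂ | ∀ l : Fin i, φ ∈ {φ : σ × Fin N → ℂ |
      aeval φ (p (l : ℕ)) = 0}} := by
    ext φ
    simp only [Cy, Set.mem_ofPred_eq]
    constructor
    · intro H l
      rw [← hp, H l l.2]
    · intro H l hl
      rw [hp, H ⟨l, hl⟩]
  rw [e]
  exact h

theorem isCons_Str {N : ℕ} (i : Fin N) (c : k) (f : MvPolynomial σ k) :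
    IsCons k (Str i c f) := by
  have h1 := isCons_Y N c (stab k f)
  have h2 := B1_isCons_forall (k := k) (ι := (σ ⊕ Bool) × Fin N) (J := {l : Fin N // l < i})
    (A := fun l => {φ : (σ ⊕ Bool) × Fin N → ℂ | aeval φ (X (Sum.inr true, l.1) :
      MvPolynomial ((σ ⊕ Bool) × Fin N) k) = 0}) (fun l => IsCons.zero _)
  have h3 := (IsCons.zero (k := k) (X (Sum.inr true, i) :
      MvPolynomial ((σ ⊕ Bool) × Fin N) k)).compl
  have e : Str i c f = Y k N c (stab k f) ∩ ({φ | ∀ l : {l : Fin N // l < i},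
      φ ∈ {φ : (σ ⊕ Bool) × Fin N → ℂ | aeval φ (X (Sum.inr true, l.1) :
      MvPolynomial ((σ ⊕ Bool) × Fin N) k) = 0}} ∩ {φ : (σ ⊕ Bool) × Fin N → ℂ |
      aeval φ (X (Sum.inr true, i) : MvPolynomial ((σ ⊕ Bool) × Fin N) k) = 0}ᶜ) := by
    ext φ
    simp only [Str, Set.mem_ofPred_eq, Set.mem_inter_iff, aeval_X, Set.mem_compl_iff, Subtype.forall,
      ne_eq]
  rw [e]
  exact h1.inter (h2.inter h3)

end B

end Pool.Agent.H70.Mono
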