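import Pool.Agent.H27.Mono.B1
import Pool.Agent.H51.Mono.A

/-!
# Project MONO, module B3: invariance under isomorphisms
-/

set_option autoImplicit false

namespace Pool.Agent.H70.Mono

open MvPolynomial

section B

variable {k : Type} [Field k] [Algebra k ℂ] {σ τ : Type}

/-- the map on truncated arcs induced by a homomorphism of polynomial rings -/
noncomputable def arcMap (N : ℕ) (e : MvPolynomial σ k →ₐ[k] MvPolynomial τ k)
    (φ : τ × Fin N → ℂ) : σ × Fin N → ℂ :=
  fun q => PowerSeries.coeff (q.2 : ℕ) (arcEval k φ (e (X q.1)))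

theorem arcMap_dvd {N : ℕ} (e : MvPolynomial σ k →ₐ[k] MvPolynomial τ k)
    (φ : τ × Fin N → ℂ) (g : MvPolynomial σ k) :
    PowerSeries.X ^ N ∣ arcEval k (arcMap N e φ) g - arcEval k φ (e g) := by
  have h1 : arcEval k φ (e g) = aeval (fun j => arcEval k φ (e (X j))) g := by
    have h : ((aeval (arc φ) : MvPolynomial τ k →ₐ[k] PowerSeries ℂ).comp e) =
        aeval (fun j => arcEval k φ (e (X j))) := by
      refine MvPolynomial.algHom_ext fun j => ?_
      rw [aeval_X]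
      rfl
    have h' := DFunLike.congr_fun h g
    exact h'
  rw [h1]
  refine arcEval_congr g _ _ N fun j => ?_
  rw [PowerSeries.X_pow_dvd_iff]
  intro l hl
  rw [map_sub, coeff_arc, dif_pos hl]
  exact sub_self _

theorem coeff_arcMap {N : ℕ} (e : MvPolynomial σ k →ₐ[k] MvPolynomial τ k)
    (φ : τ × Fin N → ℂ) (g : MvPolynomial σ k) {l : ℕ} (hl : l < N) :
    PowerSeries.coeff l (arcEval k (arcMap N e φ) g) =
      PowerSeries.coeff l (arcEval k φ (e g)) := by
  have h := (PowerSeries.X_pow_dvd_iff.1 (arcMap_dvd e φ g)) l hl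
  rw [map_sub, sub_eq_zero] at h
  exact h

theorem arcMap_comp {N : ℕ} (e : MvPolynomial σ k ≃ₐ[k] MvPolynomial τ k)
    (φ : τ × Fin N → ℂ) :
    arcMap N (e.symm : MvPolynomial τ k →ₐ[k] MvPolynomial σ k)
      (arcMap N (e : MvPolynomial σ k →ₐ[k] MvPolynomial τ k) φ) = φ := by
  ext ⟨i, l⟩
  have h := coeff_arcMap (e : MvPolynomial σ k →ₐ[k] MvPolynomial τ k) φ
    ((e.symm : MvPolynomial τ k →ₐ[k] MvPolynomial σ k) (X i)) l.2
  have h2 : (e : MvPolynomial σ k →ₐ[k] MvPolynomial τ k)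
      ((e.symm : MvPolynomial τ k →ₐ[k] MvPolynomial σ k) (X i)) = X i := by
    simp
  rw [h2] at h
  have h3 : arcEval k φ (X i) = arc φ i := by
    unfold arcEval
    rw [aeval_X]
  rw [h3, coeff_arc, dif_pos l.2] at h
  exact h

theorem arcMap_mem {N : ℕ} (c : k) (e : MvPolynomial σ k →ₐ[k] MvPolynomial τ k)
    (φ : τ × Fin N → ℂ) (f : MvPolynomial σ k) :
    arcMap N e φ ∈ Y k N c f ↔ φ ∈ Y k N c (e f) := by
  constructor
  · intro h l hl
    rw [← coeff_arcMap e φ f hl]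
    exact h l hl
  · intro h l hl
    rw [coeff_arcMap e φ f hl]
    exact h l hl

/-- B5: invariance under isomorphisms -/
theorem cl_Y_equiv [Finite σ] [Finite τ] (e : MvPolynomial σ k ≃ₐ[k] MvPolynomial τ k) (N : ℕ)
    (c : k) (f : MvPolynomial σ k) : cl k (Y k N c (e f)) = cl k (Y k N c f) := by
  choose p hp using fun q : σ × Fin N => exists_coeff_poly (k := k) N (q.2 : ℕ) (e (X q.1))
  have hmap : ∀ φ : τ × Fin N → ℂ, (fun q : σ × Fin N => aeval φ (p q)) =
      arcMap N (e : MvPolynomial σ k →ₐ[k] MvPolynomial τ k) φ := by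
    intro φ
    funext q
    rw [← hp]
    rfl
  refine cl_bij (isCons_Y N c (e f)) (isCons_Y N c f) p ?_
  rw [funext hmap]
  refine ⟨?_, ?_, ?_⟩
  · intro φ hφ
    exact (arcMap_mem c (e : MvPolynomial σ k →ₐ[k] MvPolynomial τ k) φ f).2 hφ
  · intro φ _ ψ _ h
    have h' : arcMap N (e : MvPolynomial σ k →ₐ[k] MvPolynomial τ k) φ =
        arcMap N (e : MvPolynomial σ k →ₐ[k] MvPolynomial τ k) ψ := h
    rw [← arcMap_comp e φ, ← arcMap_comp e ψ, h']
  · intro ψ hψ
    have h1 := arcMap_comp (N := N) e.symm ψ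
    rw [AlgEquiv.symm_symm] at h1
    refine ⟨arcMap N (e.symm : MvPolynomial τ k →ₐ[k] MvPolynomial σ k) ψ, ?_, h1⟩
    refine (arcMap_mem c (e : MvPolynomial σ k →ₐ[k] MvPolynomial τ k) _ f).1 ?_
    rw [h1]
    exact hψ

theorem Zmot_equiv [Finite σ] [Finite τ] (h : Nat.card σ = Nat.card τ)
    (e : MvPolynomial σ k ≃ₐ[k] MvPolynomial τ k) (f : MvPolynomial σ k) :
    Zmot k (e f) = Zmot k f := by
  unfold Zmot mot
  rw [h]
  congr 1
  funext d
  rw [cl_Y_equiv]

end B

end Pool.Agent.H70.Mono
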